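import Pool.Agent.helper66.JS.Defs3

/-!
# Common lemmas for the counter program of the time-stepped job shop
-/

set_option autoImplicit false

namespace Pool.Agent.helper66.JS

open Turing Finset

namespace PP

/-- cell of a job -/
def cell (T js : List Job) (p : ℕ → ℕ) (ν : ℕ) : ℕ :=
  T.idxOf (js.getD ν []) + T.length * p ν

/-- number of jobs in the cell `i` -/
def N (T js : List Job) (p : ℕ → ℕ) (i : ℕ) : ℕ :=
  ((Finset.range js.length).filter (fun ν => cell T js p ν = i)).card

/-- indicator of the cell chosen by `a` -/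
def ind (a i : ℕ) : ℕ := if a = i + 1 then 1 else 0

/-- indicator of the cell to which the cell chosen by `a` moves -/
def indr (r a i : ℕ) : ℕ := if a ≠ 0 ∧ a - 1 + r = i then 1 else 0

/-- move one job -/
def mvj (p : ℕ → ℕ) (a ν : ℕ) : ℕ → ℕ := if a = 0 then p else Function.update p ν (p ν + 1)

lemma filter_length_eq (n : ℕ) (P : ℕ → Prop) [DecidablePred P] :
    ((List.range n).filter (fun i => P i)).length = ((Finset.range n).filter P).card := by
  rfl

lemma cJ_len (T js : List Job) (p : ℕ → ℕ) (L : ℕ) : cJ T js p L T.length = L := by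
  simp [cJ]

lemma cJ_ix (T js : List Job) (p : ℕ → ℕ) (L i : ℕ) : cJ T js p L (ix T i) = N T js p i := by
  unfold cJ ix N
  by_cases h : i < T.length
  · rw [if_pos h, if_neg (by omega), if_pos h]
    exact filter_length_eq _ _
  · rw [if_neg h, if_neg (by omega), if_neg (by omega)]
    simp only [Nat.add_sub_cancel]
    exact filter_length_eq _ _

lemma ix_ne (T : List Job) (i : ℕ) : ix T i ≠ T.length := by
  unfold ix
  split_ifs <;> omega

lemma ix_inj (T : List Job) {i j : ℕ} (h : ix T i = ix T j) : i = j := by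
  unfold ix at h
  split_ifs at h <;> omega

lemma ix_surj (T : List Job) (j : ℕ) (h : j ≠ T.length) : ∃ i, ix T i = j := by
  by_cases hj : j < T.length
  · exact ⟨j, by simp [ix, hj]⟩
  · exact ⟨j - 1, by
      unfold ix
      rw [if_neg (by omega)]
      omega⟩

lemma ix_le (T : List Job) (i : ℕ) : ix T i ≤ i + 1 := by
  unfold ix
  split_ifs <;> omega

/-- two counter functions agree if they agree at all cells and at the time -/
lemma ext_ix (T : List Job) {c c' : ℕ → ℕ} (h1 : ∀ i, c (ix T i) = c' (ix T i))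
    (h2 : c T.length = c' T.length) : c = c' := by
  funext j
  by_cases hj : j = T.length
  · subst hj
    exact h2
  · obtain ⟨i, rfl⟩ := ix_surj T j hj
    exact h1 i

lemma N_sum (T js : List Job) (p : ℕ → ℕ) (i : ℕ) :
    N T js p i = ∑ ν ∈ Finset.range js.length, if cell T js p ν = i then 1 else 0 := by
  unfold N
  rw [Finset.card_filter]

lemma N_update (T js : List Job) (p : ℕ → ℕ) (ν i : ℕ) (hν : ν < js.length) :
    N T js (Function.update p ν (p ν + 1)) i + (if cell T js p ν = i then 1 else 0) =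
      N T js p i + (if cell T js p ν + T.length = i then 1 else 0) := by
  rw [N_sum, N_sum, ← Finset.add_sum_erase _ _ (Finset.mem_range.2 hν),
    ← Finset.add_sum_erase (Finset.range js.length) (fun ν' => if cell T js p ν' = i then 1 else 0)
      (Finset.mem_range.2 hν)]
  have h1 : cell T js (Function.update p ν (p ν + 1)) ν = cell T js p ν + T.length := by
    unfold cell
    rw [Function.update_self]
    ring
  have h2 : ∑ x ∈ (Finset.range js.length).erase ν,
      (if cell T js (Function.update p ν (p ν + 1)) x = i then 1 else 0) =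
      ∑ x ∈ (Finset.range js.length).erase ν, (if cell T js p x = i then 1 else 0) := by
    apply Finset.sum_congr rfl
    intro x hx
    have hne : x ≠ ν := (Finset.mem_erase.1 hx).1
    unfold cell
    rw [Function.update_of_ne hne]
  rw [h1, h2]
  ring

lemma N_mvj (T js : List Job) (p : ℕ → ℕ) (a ν i : ℕ)
    (h : a ≠ 0 → ν < js.length ∧ cell T js p ν + 1 = a) :
    N T js (mvj p a ν) i + ind a i = N T js p i + indr T.length a i := by
  unfold mvj ind indr
  by_cases ha : a = 0
  · subst ha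
    simp
  · obtain ⟨h1, h2⟩ := h ha
    rw [if_neg ha]
    have := N_update T js p ν i h1
    have e1 : (a = i + 1) = (cell T js p ν = i) := by
      apply propext
      omega
    have e2 : (a ≠ 0 ∧ a - 1 + T.length = i) = (cell T js p ν + T.length = i) := by
      apply propext
      omega
    simp only [e1, e2]
    exact this

lemma N_congr (T js : List Job) (p p' : ℕ → ℕ) (h : ∀ ν < js.length, p ν = p' ν) (i : ℕ) :
    N T js p i = N T js p' i := by
  rw [N_sum, N_sum]
  apply Finset.sum_congr rfl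
  intro ν hν
  unfold cell
  rw [h ν (Finset.mem_range.1 hν)]

lemma N_pos_iff (T js : List Job) (p : ℕ → ℕ) (i : ℕ) :
    0 < N T js p i ↔ ∃ ν < js.length, cell T js p ν = i := by
  unfold N
  rw [Finset.card_pos]
  constructor
  · rintro ⟨ν, hν⟩
    rw [Finset.mem_filter, Finset.mem_range] at hν
    exact ⟨ν, hν.1, hν.2⟩
  · rintro ⟨ν, h1, h2⟩
    exact ⟨ν, Finset.mem_filter.2 ⟨Finset.mem_range.2 h1, h2⟩⟩

lemma N_le_one (T js : List Job) (p : ℕ → ℕ) (i ν ν' : ℕ) (h : N T js p i ≤ 1)
    (h1 : ν < js.length) (h2 : ν' < js.length) (h3 : cell T js p ν = i)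
    (h4 : cell T js p ν' = i) : ν = ν' := by
  unfold N at h
  rw [Finset.card_le_one] at h
  exact h ν (Finset.mem_filter.2 ⟨Finset.mem_range.2 h1, h3⟩) ν'
    (Finset.mem_filter.2 ⟨Finset.mem_range.2 h2, h4⟩)

lemma getD_mem (js : List Job) (ν : ℕ) (hν : ν < js.length) : js.getD ν [] ∈ js := by
  rw [List.getD_eq_getElem _ _ hν]
  exact List.getElem_mem hν

lemma cell_mod (T js : List Job) (p : ℕ → ℕ) (ν : ℕ) (h : js.getD ν [] ∈ T) :
    cell T js p ν % T.length = T.idxOf (js.getD ν []) ∧ cell T js p ν / T.length = p ν := by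
  have h1 : T.idxOf (js.getD ν []) < T.length := List.idxOf_lt_length_iff.2 h
  unfold cell
  constructor
  · rw [Nat.add_mul_mod_self_left, Nat.mod_eq_of_lt h1]
  · rw [Nat.add_mul_div_left _ _ (by omega), Nat.div_eq_of_lt h1, zero_add]

lemma un_cell (T js : List Job) (p : ℕ → ℕ) (ν : ℕ) (h : js.getD ν [] ∈ T) :
    un T (cell T js p ν) = (units (js.getD ν []))[p ν]? := by
  unfold un
  obtain ⟨h1, h2⟩ := cell_mod T js p ν h
  rw [h1, h2]
  have h3 : T.idxOf (js.getD ν []) < T.length := List.idxOf_lt_length_iff.2 h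
  rw [List.getD_eq_getElem _ _ h3, List.getElem_idxOf]

lemma cell_lt (T js : List Job) (p : ℕ → ℕ) (ν : ℕ) (h : js.getD ν [] ∈ T)
    (hp : p ν < (units (js.getD ν [])).length) : cell T js p ν < T.length * um T := by
  have h1 : T.idxOf (js.getD ν []) < T.length := List.idxOf_lt_length_iff.2 h
  have h2 : (units (js.getD ν [])).length ≤ um T := by
    unfold um
    have : ∀ (l : List ℕ) (x : ℕ), x ∈ l → x ≤ l.foldr max 0 := by
      intro l
      induction l with
      | nil => intro x hx; simp at hx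
      | cons y l ih =>
        intro x hx
        rw [List.foldr_cons]
        rcases List.mem_cons.1 hx with rfl | hx
        · exact le_max_left _ _
        · exact (ih x hx).trans (le_max_right _ _)
    exact this _ _ (List.mem_map.2 ⟨_, h, rfl⟩)
  unfold cell
  have h3 : T.length * (p ν + 1) ≤ T.length * um T := Nat.mul_le_mul_left _ (by omega)
  rw [Nat.mul_add, Nat.mul_one] at h3
  omega

lemma mem_chs (T : List Job) (μ a : ℕ) :
    a ∈ chs T μ ↔ a = 0 ∨ (a ≠ 0 ∧ a - 1 < T.length * um T ∧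
      (un T (a - 1)).map Prod.fst = some μ) := by
  unfold chs
  rw [List.mem_cons]
  apply or_congr Iff.rfl
  simp only [List.mem_map, List.mem_filter, List.mem_range, decide_eq_true_eq]
  constructor
  · rintro ⟨i, ⟨h1, h2⟩, rfl⟩
    exact ⟨by omega, by simpa using h1, by simpa using h2⟩
  · rintro ⟨h0, h1, h2⟩
    exact ⟨a - 1, ⟨h1, h2⟩, by omega⟩

lemma chs_ne (T : List Job) {μ μ' a b : ℕ} (ha : a ∈ chs T μ) (hb : b ∈ chs T μ')
    (hμ : μ ≠ μ') (h0 : a ≠ 0) : a ≠ b := by
  rintro rfl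
  rw [mem_chs] at ha hb
  rcases ha with ha | ⟨_, _, ha⟩
  · exact h0 ha
  rcases hb with hb | ⟨_, _, hb⟩
  · exact h0 hb
  rw [ha] at hb
  exact hμ (by simpa using hb)

/-- the job at a chosen cell -/
lemma cur_of_chs (T js : List Job) (p : ℕ → ℕ) (ν μ : ℕ) (h : js.getD ν [] ∈ T)
    (ha : cell T js p ν + 1 ∈ chs T μ) :
    p ν < (units (js.getD ν [])).length ∧ (cur js p ν).1 = μ := by
  rw [mem_chs] at ha
  rcases ha with ha | ⟨_, _, ha⟩
  · omega
  rw [Nat.add_sub_cancel, un_cell T js p ν h] at ha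
  by_cases hlt : p ν < (units (js.getD ν [])).length
  · refine ⟨hlt, ?_⟩
    rw [List.getElem?_eq_getElem hlt] at ha
    unfold cur
    rw [List.getD_eq_getElem _ _ hlt]
    simpa using ha
  · rw [List.getElem?_eq_none (by omega)] at ha
    simp at ha

lemma chs_of_cur (T js : List Job) (p : ℕ → ℕ) (ν : ℕ) (h : js.getD ν [] ∈ T)
    (hp : p ν < (units (js.getD ν [])).length) :
    cell T js p ν + 1 ∈ chs T (cur js p ν).1 := by
  rw [mem_chs]
  right
  refine ⟨by omega, ?_, ?_⟩
  · rw [Nat.add_sub_cancel]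
    exact cell_lt T js p ν h hp
  · rw [Nat.add_sub_cancel, un_cell T js p ν h, List.getElem?_eq_getElem hp]
    unfold cur
    rw [List.getD_eq_getElem _ _ hp]
    rfl

lemma count_eq (js : List Job) (J : Job) :
    js.count J = ((Finset.range js.length).filter (fun ν => js.getD ν [] = J)).card := by
  have h : js = (List.range js.length).map (fun ν => js.getD ν []) := by
    apply List.ext_getElem
    · simp
    · intro i h1 h2
      rw [List.getElem_map, List.getElem_range, List.getD_eq_getElem _ _ h1]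
  conv_lhs => rw [h]
  rw [← filter_length_eq, List.count, List.countP_map, List.countP_eq_length_filter]
  congr 1
  apply List.filter_congr
  intro x _
  rw [Bool.eq_iff_iff]
  simp [Function.comp]

lemma N_le_count (T js : List Job) (p : ℕ → ℕ) (i : ℕ) (hjs : ∀ J ∈ js, J ∈ T)
    (h : 0 < N T js p i) : ∃ J, N T js p i ≤ js.count J := by
  obtain ⟨ν, hν, hc⟩ := (N_pos_iff T js p i).1 h
  refine ⟨js.getD ν [], ?_⟩
  rw [count_eq]
  unfold N
  apply Finset.card_le_card
  intro ν' hν'
  rw [Finset.mem_filter, Finset.mem_range] at hν' ⊢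
  refine ⟨hν'.1, ?_⟩
  have h1 := (cell_mod T js p ν (hjs _ (getD_mem js ν hν))).1
  have h2 := (cell_mod T js p ν' (hjs _ (getD_mem js ν' hν'.1))).1
  rw [hc] at h1
  rw [hν'.2, h1] at h2
  exact ((List.idxOf_inj (hjs _ (getD_mem js ν hν))).1 h2).symm

lemma N_zero (T js : List Job) (hT : T.Nodup) (hjs : ∀ J ∈ js, J ∈ T) (i : ℕ) :
    N T js (fun _ => 0) i = if i < T.length then js.count (T.getD i []) else 0 := by
  split_ifs with h
  · rw [count_eq]
    unfold N cell
    congr 1
    apply Finset.filter_congr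
    intro ν hν
    rw [Nat.mul_zero, Nat.add_zero, List.getD_eq_getElem _ _ h]
    have hm := hjs _ (getD_mem js ν (Finset.mem_range.1 hν))
    constructor
    · intro h1
      have h3 : T.idxOf (js.getD ν []) < T.length := List.idxOf_lt_length_iff.2 hm
      have := List.getElem_idxOf h3
      rw [← this]
      congr 1
    · intro h1
      rw [h1]
      exact List.Nodup.idxOf_getElem hT i h
  · by_contra h0
    obtain ⟨ν, hν, hc⟩ := (N_pos_iff T js _ i).1 (Nat.pos_of_ne_zero h0)
    have hm := hjs _ (getD_mem js ν hν)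
    have h3 : T.idxOf (js.getD ν []) < T.length := List.idxOf_lt_length_iff.2 hm
    unfold cell at hc
    rw [Nat.mul_zero, Nat.add_zero] at hc
    omega

lemma c0J_eq (T js : List Job) (hT : T.Nodup) (hjs : ∀ J ∈ js, J ∈ T) (L : ℕ) :
    c0J T js L = cJ T js (fun _ => 0) L := by
  apply ext_ix T
  · intro i
    rw [cJ_ix, N_zero T js hT hjs]
    unfold c0J ix
    by_cases h : i < T.length
    · rw [if_pos h, if_pos h, if_pos h]
    · rw [if_neg h, if_neg h, if_neg (by omega), if_neg (by omega)]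
  · rw [cJ_len]
    simp [c0J]

/-! ### operations -/

lemma dec_ok (T : List Job) (a : ℕ) (c c' : ℕ → ℕ) (h : (decop T a).Ok c c') :
    (∀ i, c' (ix T i) + ind a i = c (ix T i)) ∧ c' T.length = c T.length := by
  unfold decop Op.Ok at h
  unfold ind
  by_cases ha : a = 0
  · subst ha
    simp at h
    subst h
    simp
  · rw [if_neg ha] at h
    simp only [] at h
    obtain ⟨_, h | h | ⟨_, h1, h2⟩⟩ := h
    · omega
    · omega
    · subst h2
      constructor
      · intro i
        by_cases hi : a = i + 1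
        · subst hi
          rw [if_pos rfl]
          simp only [Nat.add_sub_cancel] at h1 ⊢
          rw [Function.update_self]
          omega
        · rw [if_neg hi, Function.update_of_ne, add_zero]
          intro h3
          have := ix_inj T h3
          omega
      · rw [Function.update_of_ne]
        exact (ix_ne T _).symm

lemma dec_exists (T : List Job) (a : ℕ) (c : ℕ → ℕ) (h : a ≠ 0 → 0 < c (ix T (a - 1))) :
    ∃ c', (decop T a).Ok c c' := by
  unfold decop Op.Ok
  by_cases ha : a = 0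
  · exact ⟨c, by simp [ha]⟩
  · rw [if_neg ha]
    refine ⟨_, by simp, Or.inr (Or.inr ⟨rfl, h ha, rfl⟩)⟩

lemma inc_ok (T : List Job) (a : ℕ) (Z : List ℕ) (c c' : ℕ → ℕ) (h : (incop T a Z).Ok c c') :
    (∀ j ∈ Z, c j = 0) ∧
    (∀ i, c' (ix T i) = c (ix T i) + indr T.length a i) ∧ c' T.length = c T.length := by
  unfold incop Op.Ok at h
  unfold indr
  by_cases ha : a = 0
  · subst ha
    simp at h
    obtain ⟨h1, h2⟩ := h
    subst h2
    refine ⟨h1, by simp⟩
  · rw [if_neg ha] at h
    simp only [] at h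
    obtain ⟨h0, h | ⟨_, h2⟩ | h⟩ := h
    · omega
    · subst h2
      refine ⟨h0, ?_, ?_⟩
      · intro i
        by_cases hi : a - 1 + T.length = i
        · rw [if_pos ⟨ha, hi⟩, hi, Function.update_self]
        · rw [if_neg (by tauto), Function.update_of_ne, add_zero]
          intro h3
          exact hi (ix_inj T h3).symm
      · rw [Function.update_of_ne]
        exact (ix_ne T _).symm
    · omega

lemma inc_exists (T : List Job) (a : ℕ) (Z : List ℕ) (c : ℕ → ℕ) (h : ∀ j ∈ Z, c j = 0) :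
    ∃ c', (incop T a Z).Ok c c' := by
  unfold incop Op.Ok
  by_cases ha : a = 0
  · exact ⟨c, by simp [ha]; exact h⟩
  · rw [if_neg ha]
    refine ⟨_, h, Or.inr (Or.inl ⟨rfl, rfl⟩)⟩

lemma mem_Zins (T : List Job) (j : ℕ) :
    j ∈ Zins T ↔ ∃ i, i < T.length * um T ∧ (un T i).map Prod.snd = some false ∧ ix T i = j := by
  unfold Zins
  simp only [List.mem_map, List.mem_filter, List.mem_range, decide_eq_true_eq, and_assoc]

lemma mem_Zend (T : List Job) (j : ℕ) :
    j ∈ Zend T ↔ ∃ i, i < T.length * um T ∧ (un T i).isSome ∧ ix T i = j := by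
  unfold Zend
  simp only [List.mem_map, List.mem_filter, List.mem_range, and_assoc]

lemma crun_inv {σ : Type} {M : List (σ × Op × σ)} {bd n : ℕ} {s : σ} {c : ℕ → ℕ}
    {z : σ × (ℕ → ℕ)} (h : CRun M bd n (s, c) z) :
    z = (s, c) ∨ ∃ m q o c1, n = m + 1 ∧ (s, o, q) ∈ M ∧ o.Ok c c1 ∧ (∀ j, c1 j < bd) ∧
      CRun M bd m (q, c1) z := by
  cases h with
  | refl => exact Or.inl rfl
  | step m p q o c1 c' z hM ho hb h => exact Or.inr ⟨m, q, o, c', rfl, hM, ho, hb, h⟩

lemma mem_prog (T : List Job) (R : ℕ) (s : PSt) (o : Op) (q : PSt) :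
    (s, o, q) ∈ prog T R ↔
      (s = (0, 0, 0, 0) ∧ o = ⟨0, 0, List.range' (T.length + 1) (R - (T.length + 1))⟩ ∧
        q = (1, 0, 0, 0)) ∨
      (s = (1, 0, 0, 0) ∧ o = ⟨0, 0, Zend T⟩ ∧ q = (8, 0, 0, 0)) ∨
      (s = (7, 0, 0, 0) ∧ o = ⟨2, T.length, []⟩ ∧ q = (1, 0, 0, 0)) ∨
      (∃ a ∈ chs T 0, s = (1, 0, 0, 0) ∧ o = decop T a ∧ q = (2, a, 0, 0)) ∨
      (∃ a ∈ chs T 0, ∃ b ∈ chs T 1, s = (2, a, 0, 0) ∧ o = decop T b ∧ q = (3, a, b, 0)) ∨
      (∃ a ∈ chs T 0, ∃ b ∈ chs T 1, ∃ d ∈ chs T 2,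
        s = (3, a, b, 0) ∧ o = decop T d ∧ q = (4, a, b, d)) ∨
      (∃ a ∈ chs T 0, ∃ b ∈ chs T 1, ∃ d ∈ chs T 2,
        s = (4, a, b, d) ∧ o = incop T a (Zins T) ∧ q = (5, 0, b, d)) ∨
      (∃ a ∈ chs T 0, ∃ b ∈ chs T 1, ∃ d ∈ chs T 2,
        s = (5, 0, b, d) ∧ o = incop T b [] ∧ q = (6, 0, 0, d)) ∨
      (∃ a ∈ chs T 0, ∃ b ∈ chs T 1, ∃ d ∈ chs T 2,
        s = (6, 0, 0, d) ∧ o = incop T d [] ∧ q = (7, 0, 0, 0)) := by
  unfold prog
  simp only [List.mem_append, List.mem_cons, List.not_mem_nil, or_false, Prod.mk.injEq,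
    List.mem_flatMap]
  constructor
  · rintro ((⟨⟨h1, h2, h3, h4⟩, h5, h6, h7, h8, h9⟩ | ⟨⟨h1, h2, h3, h4⟩, h5, h6, h7, h8, h9⟩ |
      ⟨⟨h1, h2, h3, h4⟩, h5, h6, h7, h8, h9⟩) | ⟨a, ha, h | ⟨b, hb, h | ⟨d, hd, h⟩⟩⟩)
    · subst_vars; simp_all
    · subst_vars; simp_all
    · subst_vars; simp_all
    · right; right; right; left
      exact ⟨a, ha, by simpa [Prod.ext_iff] using h⟩
    · right; right; right; right; left
      exact ⟨a, ha, b, hb, by simpa [Prod.ext_iff] using h⟩
    · rcases h with h | h | h | h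
      · right; right; right; right; right; left
        exact ⟨a, ha, b, hb, d, hd, by simpa [Prod.ext_iff] using h⟩
      · right; right; right; right; right; right; left
        exact ⟨a, ha, b, hb, d, hd, by simpa [Prod.ext_iff] using h⟩
      · right; right; right; right; right; right; right; left
        exact ⟨a, ha, b, hb, d, hd, by simpa [Prod.ext_iff] using h⟩
      · right; right; right; right; right; right; right; right
        exact ⟨a, ha, b, hb, d, hd, by simpa [Prod.ext_iff] using h⟩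
  · rintro (⟨rfl, rfl, rfl⟩ | ⟨rfl, rfl, rfl⟩ | ⟨rfl, rfl, rfl⟩ | ⟨a, ha, rfl, rfl, rfl⟩ |
      ⟨a, ha, b, hb, rfl, rfl, rfl⟩ | ⟨a, ha, b, hb, d, hd, rfl, rfl, rfl⟩ |
      ⟨a, ha, b, hb, d, hd, rfl, rfl, rfl⟩ | ⟨a, ha, b, hb, d, hd, rfl, rfl, rfl⟩ |
      ⟨a, ha, b, hb, d, hd, rfl, rfl, rfl⟩)
    · left; left; simp
    · left; right; left; simp
    · left; right; right; simp
    · right; exact ⟨a, ha, Or.inl (by simp)⟩
    · right; exact ⟨a, ha, Or.inr ⟨b, hb, Or.inl (by simp)⟩⟩
    · right; exact ⟨a, ha, Or.inr ⟨b, hb, Or.inr ⟨d, hd, Or.inl (by simp)⟩⟩⟩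
    · right; exact ⟨a, ha, Or.inr ⟨b, hb, Or.inr ⟨d, hd, Or.inr (Or.inl (by simp))⟩⟩⟩
    · right; exact ⟨a, ha, Or.inr ⟨b, hb, Or.inr ⟨d, hd, Or.inr (Or.inr (Or.inl (by simp)))⟩⟩⟩
    · right; exact ⟨a, ha, Or.inr ⟨b, hb, Or.inr ⟨d, hd, Or.inr (Or.inr (Or.inr (by simp)))⟩⟩⟩

end PP

end Pool.Agent.helper66.JS
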