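import Pool.Agent.helper23.JS2.P0

/-!
# From runs of the counter program to time-stepped schedules
-/

set_option autoImplicit false

namespace Pool.Agent.helper66.JS

open Turing Finset

namespace PP


/-- step from the start state -/
lemma inv0 {T : List Job} {R bd n : ℕ} {c c' : ℕ → ℕ}
    (h : CRun (prog T R) bd n ((0, 0, 0, 0), c) ((8, 0, 0, 0), c')) :
    ∃ m, CRun (prog T R) bd m ((1, 0, 0, 0), c) ((8, 0, 0, 0), c') := by
  rcases crun_inv h with h | ⟨m, q, o, c1, rfl, hM, ho, -, h'⟩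
  · simp at h
  rw [mem_prog] at hM
  rcases hM with ⟨-, rfl, rfl⟩ | ⟨h1, -⟩ | ⟨h1, -⟩ | ⟨a, -, h1, -⟩ | ⟨a, -, b, -, h1, -⟩ |
    ⟨a, -, b, -, d, -, h1, -⟩ | ⟨a, -, b, -, d, -, h1, -⟩ | ⟨a, -, b, -, d, -, h1, -⟩ |
    ⟨a, -, b, -, d, -, h1, -⟩
  · obtain ⟨-, ⟨-, rfl⟩ | ⟨h1, -⟩ | ⟨h1, -⟩⟩ := ho
    · exact ⟨m, h'⟩
    · simp at h1
    · simp at h1
  all_goals simp [Prod.ext_iff] at h1

lemma inv1 {T : List Job} {R bd n : ℕ} {c c' : ℕ → ℕ}
    (h : CRun (prog T R) bd n ((1, 0, 0, 0), c) ((8, 0, 0, 0), c')) :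
    (∀ j ∈ Zend T, c j = 0) ∨ ∃ m a c1, n = m + 1 ∧ a ∈ chs T 0 ∧ (decop T a).Ok c c1 ∧
      CRun (prog T R) bd m ((2, a, 0, 0), c1) ((8, 0, 0, 0), c') := by
  rcases crun_inv h with h | ⟨m, q, o, c1, rfl, hM, ho, -, h⟩
  · simp at h
  rw [mem_prog] at hM
  rcases hM with ⟨h1, -⟩ | ⟨-, rfl, -⟩ | ⟨h1, -⟩ | ⟨a, ha, -, rfl, rfl⟩ | ⟨a, -, b, -, h1, -⟩ |
    ⟨a, -, b, -, d, -, h1, -⟩ | ⟨a, -, b, -, d, -, h1, -⟩ | ⟨a, -, b, -, d, -, h1, -⟩ |
    ⟨a, -, b, -, d, -, h1, -⟩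
  · simp [Prod.ext_iff] at h1
  · exact Or.inl ho.1
  · simp [Prod.ext_iff] at h1
  · exact Or.inr ⟨m, a, c1, rfl, ha, ho, h⟩
  all_goals simp [Prod.ext_iff] at h1

lemma inv2 {T : List Job} {R bd n a : ℕ} {c c' : ℕ → ℕ}
    (h : CRun (prog T R) bd n ((2, a, 0, 0), c) ((8, 0, 0, 0), c')) :
    ∃ m b c1, n = m + 1 ∧ b ∈ chs T 1 ∧ (decop T b).Ok c c1 ∧
      CRun (prog T R) bd m ((3, a, b, 0), c1) ((8, 0, 0, 0), c') := by
  rcases crun_inv h with h | ⟨m, q, o, c1, rfl, hM, ho, -, h⟩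
  · simp at h
  rw [mem_prog] at hM
  rcases hM with ⟨h1, -⟩ | ⟨h1, -⟩ | ⟨h1, -⟩ | ⟨a, ha, h1, -⟩ | ⟨a', -, b, hb, h1, rfl, rfl⟩ |
    ⟨a, -, b, -, d, -, h1, -⟩ | ⟨a, -, b, -, d, -, h1, -⟩ | ⟨a, -, b, -, d, -, h1, -⟩ |
    ⟨a, -, b, -, d, -, h1, -⟩
  · simp [Prod.ext_iff] at h1
  · simp [Prod.ext_iff] at h1
  · simp [Prod.ext_iff] at h1
  · simp [Prod.ext_iff] at h1
  · simp only [Prod.mk.injEq] at h1
    obtain ⟨-, rfl, -, -⟩ := h1
    exact ⟨m, b, c1, rfl, hb, ho, h⟩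
  all_goals simp [Prod.ext_iff] at h1

lemma inv3 {T : List Job} {R bd n a b : ℕ} {c c' : ℕ → ℕ}
    (h : CRun (prog T R) bd n ((3, a, b, 0), c) ((8, 0, 0, 0), c')) :
    ∃ m d c1, n = m + 1 ∧ d ∈ chs T 2 ∧ (decop T d).Ok c c1 ∧
      CRun (prog T R) bd m ((4, a, b, d), c1) ((8, 0, 0, 0), c') := by
  rcases crun_inv h with h | ⟨m, q, o, c1, rfl, hM, ho, -, h⟩
  · simp at h
  rw [mem_prog] at hM
  rcases hM with ⟨h1, -⟩ | ⟨h1, -⟩ | ⟨h1, -⟩ | ⟨a, ha, h1, -⟩ | ⟨a', -, b, hb, h1, -⟩ |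
    ⟨a', -, b', -, d, hd, h1, rfl, rfl⟩ | ⟨a, -, b, -, d, -, h1, -⟩ |
    ⟨a, -, b, -, d, -, h1, -⟩ | ⟨a, -, b, -, d, -, h1, -⟩
  · simp [Prod.ext_iff] at h1
  · simp [Prod.ext_iff] at h1
  · simp [Prod.ext_iff] at h1
  · simp [Prod.ext_iff] at h1
  · simp [Prod.ext_iff] at h1
  · simp only [Prod.mk.injEq] at h1
    obtain ⟨-, rfl, rfl, -⟩ := h1
    exact ⟨m, d, c1, rfl, hd, ho, h⟩
  all_goals simp [Prod.ext_iff] at h1

lemma inv4 {T : List Job} {R bd n a b d : ℕ} {c c' : ℕ → ℕ}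
    (h : CRun (prog T R) bd n ((4, a, b, d), c) ((8, 0, 0, 0), c')) :
    ∃ m c1, n = m + 1 ∧ (incop T a (Zins T)).Ok c c1 ∧
      CRun (prog T R) bd m ((5, 0, b, d), c1) ((8, 0, 0, 0), c') := by
  rcases crun_inv h with h | ⟨m, q, o, c1, rfl, hM, ho, -, h⟩
  · simp at h
  rw [mem_prog] at hM
  rcases hM with ⟨h1, -⟩ | ⟨h1, -⟩ | ⟨h1, -⟩ | ⟨a, ha, h1, -⟩ | ⟨a', -, b, hb, h1, -⟩ |
    ⟨a', -, b', -, d, hd, h1, -⟩ | ⟨a', -, b', -, d', -, h1, rfl, rfl⟩ |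
    ⟨a, -, b, -, d, -, h1, -⟩ | ⟨a, -, b, -, d, -, h1, -⟩
  · simp [Prod.ext_iff] at h1
  · simp [Prod.ext_iff] at h1
  · simp [Prod.ext_iff] at h1
  · simp [Prod.ext_iff] at h1
  · simp [Prod.ext_iff] at h1
  · simp [Prod.ext_iff] at h1
  · simp only [Prod.mk.injEq] at h1
    obtain ⟨-, rfl, rfl, rfl⟩ := h1
    exact ⟨m, c1, rfl, ho, h⟩
  all_goals simp [Prod.ext_iff] at h1

lemma inv5 {T : List Job} {R bd n b d : ℕ} {c c' : ℕ → ℕ}
    (h : CRun (prog T R) bd n ((5, 0, b, d), c) ((8, 0, 0, 0), c')) :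
    ∃ m c1, n = m + 1 ∧ (incop T b []).Ok c c1 ∧
      CRun (prog T R) bd m ((6, 0, 0, d), c1) ((8, 0, 0, 0), c') := by
  rcases crun_inv h with h | ⟨m, q, o, c1, rfl, hM, ho, -, h⟩
  · simp at h
  rw [mem_prog] at hM
  rcases hM with ⟨h1, -⟩ | ⟨h1, -⟩ | ⟨h1, -⟩ | ⟨a, ha, h1, -⟩ | ⟨a', -, b, hb, h1, -⟩ |
    ⟨a', -, b', -, d, hd, h1, -⟩ | ⟨a', -, b', -, d', -, h1, -⟩ |
    ⟨a', -, b', -, d', -, h1, rfl, rfl⟩ | ⟨a, -, b, -, d, -, h1, -⟩
  · simp [Prod.ext_iff] at h1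
  · simp [Prod.ext_iff] at h1
  · simp [Prod.ext_iff] at h1
  · simp [Prod.ext_iff] at h1
  · simp [Prod.ext_iff] at h1
  · simp [Prod.ext_iff] at h1
  · simp [Prod.ext_iff] at h1
  · simp only [Prod.mk.injEq] at h1
    obtain ⟨-, -, rfl, rfl⟩ := h1
    exact ⟨m, c1, rfl, ho, h⟩
  all_goals simp [Prod.ext_iff] at h1

lemma inv6 {T : List Job} {R bd n d : ℕ} {c c' : ℕ → ℕ}
    (h : CRun (prog T R) bd n ((6, 0, 0, d), c) ((8, 0, 0, 0), c')) :
    ∃ m c1, n = m + 1 ∧ (incop T d []).Ok c c1 ∧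
      CRun (prog T R) bd m ((7, 0, 0, 0), c1) ((8, 0, 0, 0), c') := by
  rcases crun_inv h with h | ⟨m, q, o, c1, rfl, hM, ho, -, h⟩
  · simp at h
  rw [mem_prog] at hM
  rcases hM with ⟨h1, -⟩ | ⟨h1, -⟩ | ⟨h1, -⟩ | ⟨a, ha, h1, -⟩ | ⟨a', -, b, hb, h1, -⟩ |
    ⟨a', -, b', -, d, hd, h1, -⟩ | ⟨a', -, b', -, d', -, h1, -⟩ |
    ⟨a', -, b', -, d', -, h1, -⟩ | ⟨a', -, b', -, d', -, h1, rfl, rfl⟩
  · simp [Prod.ext_iff] at h1
  · simp [Prod.ext_iff] at h1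
  · simp [Prod.ext_iff] at h1
  · simp [Prod.ext_iff] at h1
  · simp [Prod.ext_iff] at h1
  · simp [Prod.ext_iff] at h1
  · simp [Prod.ext_iff] at h1
  · simp [Prod.ext_iff] at h1
  · simp only [Prod.mk.injEq] at h1
    obtain ⟨-, -, -, rfl⟩ := h1
    exact ⟨m, c1, rfl, ho, h⟩

lemma inv7 {T : List Job} {R bd n : ℕ} {c c' : ℕ → ℕ}
    (h : CRun (prog T R) bd n ((7, 0, 0, 0), c) ((8, 0, 0, 0), c')) :
    ∃ m, n = m + 1 ∧ 0 < c T.length ∧
      CRun (prog T R) bd m ((1, 0, 0, 0), Function.update c T.length (c T.length - 1))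
        ((8, 0, 0, 0), c') := by
  rcases crun_inv h with h | ⟨m, q, o, c1, rfl, hM, ho, -, h⟩
  · simp at h
  rw [mem_prog] at hM
  rcases hM with ⟨h1, -⟩ | ⟨h1, -⟩ | ⟨-, rfl, rfl⟩ | ⟨a, ha, h1, -⟩ | ⟨a', -, b, hb, h1, -⟩ |
    ⟨a', -, b', -, d, hd, h1, -⟩ | ⟨a', -, b', -, d', -, h1, -⟩ |
    ⟨a', -, b', -, d', -, h1, -⟩ | ⟨a', -, b', -, d', -, h1, -⟩
  · simp [Prod.ext_iff] at h1
  · simp [Prod.ext_iff] at h1
  · obtain ⟨-, ⟨h1, -⟩ | ⟨h1, -⟩ | ⟨-, h1, rfl⟩⟩ := ho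
    · simp at h1
    · simp at h1
    · exact ⟨m, rfl, h1, h⟩
  all_goals simp [Prod.ext_iff] at h1

/-- one time unit of the program -/
lemma inv17 {T : List Job} {R bd n : ℕ} {c c' : ℕ → ℕ}
    (h : CRun (prog T R) bd n ((1, 0, 0, 0), c) ((8, 0, 0, 0), c')) :
    (∀ j ∈ Zend T, c j = 0) ∨ ∃ (m a b d : ℕ) (c3 c7 : ℕ → ℕ), m < n ∧ a ∈ chs T 0 ∧ b ∈ chs T 1 ∧ d ∈ chs T 2 ∧
      (∀ i, c3 (ix T i) + ind a i + ind b i + ind d i = c (ix T i)) ∧
      (∀ j ∈ Zins T, c3 j = 0) ∧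
      (∀ i, c7 (ix T i) = c3 (ix T i) + indr T.length a i + indr T.length b i +
        indr T.length d i) ∧
      c T.length = c7 T.length + 1 ∧
      (∀ i, 0 < ind b i → ind a i < c (ix T i)) ∧
      CRun (prog T R) bd m ((1, 0, 0, 0), c7) ((8, 0, 0, 0), c') := by
  rcases inv1 h with h | ⟨m1, a, c1, rfl, ha, h1, h⟩
  · exact Or.inl h
  right
  obtain ⟨m2, b, c2, rfl, hb, h2, h⟩ := inv2 h
  obtain ⟨m3, d, c3, rfl, hd, h3, h⟩ := inv3 h
  obtain ⟨m4, c4, rfl, h4, h⟩ := inv4 h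
  obtain ⟨m5, c5, rfl, h5, h⟩ := inv5 h
  obtain ⟨m6, c6, rfl, h6, h⟩ := inv6 h
  obtain ⟨m7, rfl, h7, h⟩ := inv7 h
  obtain ⟨e1, f1⟩ := dec_ok T a c c1 h1
  obtain ⟨e2, f2⟩ := dec_ok T b c1 c2 h2
  obtain ⟨e3, f3⟩ := dec_ok T d c2 c3 h3
  obtain ⟨z4, e4, f4⟩ := inc_ok T a _ c3 c4 h4
  obtain ⟨-, e5, f5⟩ := inc_ok T b _ c4 c5 h5
  obtain ⟨-, e6, f6⟩ := inc_ok T d _ c5 c6 h6
  refine ⟨m7, a, b, d, c3, _, by omega, ha, hb, hd, ?_, z4, ?_, ?_, ?_, h⟩
  · intro i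
    have := e1 i
    have := e2 i
    have := e3 i
    omega
  · intro i
    rw [Function.update_of_ne (ix_ne T i)]
    have := e4 i
    have := e5 i
    have := e6 i
    omega
  · rw [Function.update_self]
    omega
  · intro i hi
    have := e1 i
    have := e2 i
    omega


/-- effect of moving the chosen jobs -/
lemma three_moves (T js : List Job) (p : ℕ → ℕ) (a b d νa νb νd : ℕ)
    (ha : a ∈ chs T 0) (hb : b ∈ chs T 1) (hd : d ∈ chs T 2)
    (ga : a ≠ 0 → νa < js.length ∧ cell T js p νa + 1 = a)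
    (gb : b ≠ 0 → νb < js.length ∧ cell T js p νb + 1 = b)
    (gd : d ≠ 0 → νd < js.length ∧ cell T js p νd + 1 = d) :
    (∀ i, N T js (mvj (mvj (mvj p a νa) b νb) d νd) i + ind a i + ind b i + ind d i =
      N T js p i + indr T.length a i + indr T.length b i + indr T.length d i) ∧
    (∀ ν, (mvj (mvj (mvj p a νa) b νb) d νd) ν = p ν ∨
      (mvj (mvj (mvj p a νa) b νb) d νd) ν = p ν + 1) ∧
    (∀ ν, (mvj (mvj (mvj p a νa) b νb) d νd) ν ≠ p ν ↔
      (a ≠ 0 ∧ ν = νa) ∨ (b ≠ 0 ∧ ν = νb) ∨ (d ≠ 0 ∧ ν = νd)) := by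
  have hab : a ≠ 0 → b ≠ 0 → νb ≠ νa := by
    intro h1 h2 h3
    have := (ga h1).2
    have := (gb h2).2
    rw [h3] at this
    exact chs_ne T ha hb (by norm_num) h1 (by omega)
  have had : a ≠ 0 → d ≠ 0 → νd ≠ νa := by
    intro h1 h2 h3
    have := (ga h1).2
    have := (gd h2).2
    rw [h3] at this
    exact chs_ne T ha hd (by norm_num) h1 (by omega)
  have hbd : b ≠ 0 → d ≠ 0 → νd ≠ νb := by
    intro h1 h2 h3
    have := (gb h1).2
    have := (gd h2).2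
    rw [h3] at this
    exact chs_ne T hb hd (by norm_num) h1 (by omega)
  have mv_of_ne : ∀ (q : ℕ → ℕ) (x ν ν' : ℕ), (x ≠ 0 → ν' ≠ ν) → mvj q x ν ν' = q ν' := by
    intro q x ν ν' h
    unfold mvj
    by_cases hx : x = 0
    · rw [if_pos hx]
    · rw [if_neg hx, Function.update_of_ne (h hx)]
  have mv_self : ∀ (q : ℕ → ℕ) (x ν : ℕ), x ≠ 0 → mvj q x ν ν = q ν + 1 := by
    intro q x ν h
    unfold mvj
    rw [if_neg h, Function.update_self]
  refine ⟨?_, ?_, ?_⟩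
  · intro i
    have h1 := N_mvj T js p a νa i ga
    have h2 := N_mvj T js (mvj p a νa) b νb i (by
      intro h
      refine ⟨(gb h).1, ?_⟩
      unfold cell
      rw [mv_of_ne _ _ _ _ (fun h' => hab h' h)]
      exact (gb h).2)
    have h3 := N_mvj T js (mvj (mvj p a νa) b νb) d νd i (by
      intro h
      refine ⟨(gd h).1, ?_⟩
      unfold cell
      rw [mv_of_ne _ _ _ _ (fun h' => hbd h' h), mv_of_ne _ _ _ _ (fun h' => had h' h)]
      exact (gd h).2)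
    omega
  · intro ν
    by_cases h3 : d ≠ 0 ∧ ν = νd
    · obtain ⟨h3, rfl⟩ := h3
      right
      rw [mv_self _ _ _ h3, mv_of_ne _ _ _ _ (fun h' => hbd h' h3),
        mv_of_ne _ _ _ _ (fun h' => had h' h3)]
    rw [mv_of_ne _ _ _ _ (fun h' h'' => h3 ⟨h', h''⟩)]
    by_cases h2 : b ≠ 0 ∧ ν = νb
    · obtain ⟨h2, rfl⟩ := h2
      right
      rw [mv_self _ _ _ h2, mv_of_ne _ _ _ _ (fun h' => hab h' h2)]
    rw [mv_of_ne _ _ _ _ (fun h' h'' => h2 ⟨h', h''⟩)]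
    by_cases h1 : a ≠ 0 ∧ ν = νa
    · obtain ⟨h1, rfl⟩ := h1
      right
      rw [mv_self _ _ _ h1]
    rw [mv_of_ne _ _ _ _ (fun h' h'' => h1 ⟨h', h''⟩)]
    exact Or.inl rfl
  · intro ν
    by_cases h3 : d ≠ 0 ∧ ν = νd
    · obtain ⟨h3, rfl⟩ := h3
      rw [mv_self _ _ _ h3, mv_of_ne _ _ _ _ (fun h' => hbd h' h3),
        mv_of_ne _ _ _ _ (fun h' => had h' h3)]
      simp [h3]
    rw [mv_of_ne _ _ _ _ (fun h' h'' => h3 ⟨h', h''⟩)]
    by_cases h2 : b ≠ 0 ∧ ν = νb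
    · obtain ⟨h2, rfl⟩ := h2
      rw [mv_self _ _ _ h2, mv_of_ne _ _ _ _ (fun h' => hab h' h2)]
      simp [h2]
    rw [mv_of_ne _ _ _ _ (fun h' h'' => h2 ⟨h', h''⟩)]
    by_cases h1 : a ≠ 0 ∧ ν = νa
    · obtain ⟨h1, rfl⟩ := h1
      rw [mv_self _ _ _ h1]
      simp [h1]
    rw [mv_of_ne _ _ _ _ (fun h' h'' => h1 ⟨h', h''⟩)]
    constructor
    · intro h
      exact absurd rfl h
    · rintro (h | h | h)
      · exact absurd h h1
      · exact absurd h h2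
      · exact absurd h h3


lemma exists_job (T js : List Job) (p : ℕ → ℕ) (R μ a : ℕ)
    (hR : T.length * (um T + 1) < R) (ha : a ∈ chs T μ) (c : ℕ → ℕ)
    (hc : ∀ i, ix T i < R → c (ix T i) = N T js p i) (hpos : a ≠ 0 → 0 < c (ix T (a - 1))) :
    ∃ ν, a ≠ 0 → ν < js.length ∧ cell T js p ν + 1 = a := by
  by_cases h : a = 0
  · exact ⟨0, fun h' => absurd h h'⟩
  rw [mem_chs] at ha
  rcases ha with ha | ⟨_, h1, _⟩
  · exact absurd ha h
  have h2 := ix_le T (a - 1)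
  have h3 : ix T (a - 1) < R := by
    rw [Nat.mul_add] at hR
    omega
  have h4 := hpos h
  rw [hc _ h3] at h4
  obtain ⟨ν, hν, hν'⟩ := (N_pos_iff T js p _).1 h4
  exact ⟨ν, fun _ => ⟨hν, by omega⟩⟩

lemma step_core (T js : List Job) (R : ℕ) (hjs : ∀ J ∈ js, J ∈ T)
    (hR : T.length * (um T + 1) < R) (p : ℕ → ℕ) (c c3 c7 : ℕ → ℕ)
    (hc : ∀ i, ix T i < R → c (ix T i) = N T js p i) (a b d : ℕ)
    (ha : a ∈ chs T 0) (hb : b ∈ chs T 1) (hd : d ∈ chs T 2)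
    (h1 : ∀ i, c3 (ix T i) + ind a i + ind b i + ind d i = c (ix T i))
    (h2 : ∀ j ∈ Zins T, c3 j = 0)
    (h3 : ∀ i, c7 (ix T i) = c3 (ix T i) + indr T.length a i + indr T.length b i +
        indr T.length d i) :
    ∃ p', JStep js p p' ∧ ∀ i, ix T i < R → c7 (ix T i) = N T js p' i := by
  obtain ⟨νa, ga⟩ := exists_job T js p R 0 a hR ha c hc (by
    intro h
    have := h1 (a - 1)
    have e : ind a (a - 1) = 1 := by
      unfold ind
      rw [if_pos (by omega)]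
    omega)
  obtain ⟨νb, gb⟩ := exists_job T js p R 1 b hR hb c hc (by
    intro h
    have := h1 (b - 1)
    have e : ind b (b - 1) = 1 := by
      unfold ind
      rw [if_pos (by omega)]
    omega)
  obtain ⟨νd, gd⟩ := exists_job T js p R 2 d hR hd c hc (by
    intro h
    have := h1 (d - 1)
    have e : ind d (d - 1) = 1 := by
      unfold ind
      rw [if_pos (by omega)]
    omega)
  obtain ⟨t1, t2, t3⟩ := three_moves T js p a b d νa νb νd ha hb hd ga gb gd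
  refine ⟨mvj (mvj (mvj p a νa) b νb) d νd, ⟨?_, ?_, ?_⟩, ?_⟩
  · intro ν hν
    rcases t2 ν with h | h
    · exact Or.inl h
    · refine Or.inr ⟨h, ?_⟩
      have hm := hjs _ (getD_mem js ν hν)
      rcases (t3 ν).1 (by omega) with ⟨g, rfl⟩ | ⟨g, rfl⟩ | ⟨g, rfl⟩
      · exact (cur_of_chs T js p ν 0 hm (by rw [(ga g).2]; exact ha)).1
      · exact (cur_of_chs T js p ν 1 hm (by rw [(gb g).2]; exact hb)).1
      · exact (cur_of_chs T js p ν 2 hm (by rw [(gd g).2]; exact hd)).1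
  · intro ν hν ν' hν' hne hm hm' heq
    have k : ∀ x, x < js.length →
        (mvj (mvj (mvj p a νa) b νb) d νd) x ≠ p x →
        (x = νa ∧ (cur js p x).1 = 0) ∨ (x = νb ∧ (cur js p x).1 = 1) ∨
          (x = νd ∧ (cur js p x).1 = 2) := by
      intro x hx hx'
      have hmx := hjs _ (getD_mem js x hx)
      rcases (t3 x).1 hx' with ⟨g, rfl⟩ | ⟨g, rfl⟩ | ⟨g, rfl⟩
      · exact Or.inl ⟨rfl, (cur_of_chs T js p x 0 hmx (by rw [(ga g).2]; exact ha)).2⟩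
      · exact Or.inr (Or.inl ⟨rfl, (cur_of_chs T js p x 1 hmx (by rw [(gb g).2]; exact hb)).2⟩)
      · exact Or.inr (Or.inr ⟨rfl, (cur_of_chs T js p x 2 hmx (by rw [(gd g).2]; exact hd)).2⟩)
    have k1 := k ν hν hm
    have k2 := k ν' hν' hm'
    omega
  · intro ν hν hlt hfl
    have hm := hjs _ (getD_mem js ν hν)
    have hcell := cell_lt T js p ν hm hlt
    have hZ : ix T (cell T js p ν) ∈ Zins T := by
      rw [mem_Zins]
      refine ⟨_, hcell, ?_, rfl⟩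
      rw [un_cell T js p ν hm, List.getElem?_eq_getElem hlt]
      unfold cur at hfl
      rw [List.getD_eq_getElem _ _ hlt] at hfl
      simpa using hfl
    have e1 := h2 _ hZ
    have e2 := h1 (cell T js p ν)
    have hRR : ix T (cell T js p ν) < R := by
      have := ix_le T (cell T js p ν)
      rw [Nat.mul_add] at hR
      omega
    rw [e1, hc _ hRR] at e2
    have e3 : 0 < N T js p (cell T js p ν) := (N_pos_iff T js p _).2 ⟨ν, hν, rfl⟩
    have a1 : ind a (cell T js p ν) = 0 ∨ (ind a (cell T js p ν) = 1 ∧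
        a = cell T js p ν + 1) := by
      unfold ind
      split_ifs with h
      · exact Or.inr ⟨rfl, h⟩
      · exact Or.inl rfl
    have b1 : ind b (cell T js p ν) = 0 ∨ (ind b (cell T js p ν) = 1 ∧
        b = cell T js p ν + 1) := by
      unfold ind
      split_ifs with h
      · exact Or.inr ⟨rfl, h⟩
      · exact Or.inl rfl
    have d1 : ind d (cell T js p ν) = 0 ∨ (ind d (cell T js p ν) = 1 ∧
        d = cell T js p ν + 1) := by
      unfold ind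
      split_ifs with h
      · exact Or.inr ⟨rfl, h⟩
      · exact Or.inl rfl
    have nab : a ≠ 0 → a ≠ b := fun h => chs_ne T ha hb (by norm_num) h
    have nad : a ≠ 0 → a ≠ d := fun h => chs_ne T ha hd (by norm_num) h
    have nbd : b ≠ 0 → b ≠ d := fun h => chs_ne T hb hd (by norm_num) h
    have hN : N T js p (cell T js p ν) ≤ 1 := by omega
    rw [t3 ν]
    rcases a1 with a1 | ⟨a1, a2⟩
    · rcases b1 with b1 | ⟨b1, b2⟩
      · rcases d1 with d1 | ⟨d1, d2⟩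
        · omega
        · right; right
          refine ⟨by omega, ?_⟩
          have hg := gd (by omega)
          exact N_le_one T js p _ ν νd hN hν hg.1 rfl (by omega)
      · right; left
        refine ⟨by omega, ?_⟩
        have hg := gb (by omega)
        exact N_le_one T js p _ ν νb hN hν hg.1 rfl (by omega)
    · left
      refine ⟨by omega, ?_⟩
      have hg := ga (by omega)
      exact N_le_one T js p _ ν νa hN hν hg.1 rfl (by omega)
  · intro i hi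
    have e1 := h1 i
    have e2 := h3 i
    have e3 := t1 i
    rw [hc i hi] at e1
    omega

/-- schedules from a given position -/
lemma main1 (T js : List Job) (R bd : ℕ) (hjs : ∀ J ∈ js, J ∈ T)
    (hR : T.length * (um T + 1) < R) (c' : ℕ → ℕ) :
    ∀ (n : ℕ) (c p : ℕ → ℕ) (L : ℕ), (∀ i, ix T i < R → c (ix T i) = N T js p i) →
      c T.length = L → (∀ ν < js.length, p ν ≤ (units (js.getD ν [])).length) →
      CRun (prog T R) bd n ((1, 0, 0, 0), c) ((8, 0, 0, 0), c') →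
      ∃ q : ℕ → ℕ → ℕ, (∀ ν < js.length, q 0 ν = p ν) ∧
        (∀ t < L, JStep js (q t) (q (t + 1))) ∧
        ∀ ν < js.length, q L ν = (units (js.getD ν [])).length := by
  intro n
  induction n using Nat.strong_induction_on with
  | _ n ih =>
  intro c p L hc hL hp h
  rcases inv17 h with h | ⟨m, a, b, d, c3, c7, hm, ha, hb, hd, h1, h2, h3, h4, -, h⟩
  · have hfin : ∀ ν < js.length, p ν = (units (js.getD ν [])).length := by
      intro ν hν
      by_contra hne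
      have hlt : p ν < (units (js.getD ν [])).length := by
        have := hp ν hν
        omega
      have hmem := hjs _ (getD_mem js ν hν)
      have hcell := cell_lt T js p ν hmem hlt
      have hZ : ix T (cell T js p ν) ∈ Zend T := by
        rw [mem_Zend]
        refine ⟨_, hcell, ?_, rfl⟩
        rw [un_cell T js p ν hmem, List.getElem?_eq_getElem hlt]
        rfl
      have e1 := h _ hZ
      have hRR : ix T (cell T js p ν) < R := by
        have := ix_le T (cell T js p ν)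
        rw [Nat.mul_add] at hR
        omega
      rw [hc _ hRR] at e1
      have e3 : 0 < N T js p (cell T js p ν) := (N_pos_iff T js p _).2 ⟨ν, hν, rfl⟩
      omega
    refine ⟨fun _ => p, fun ν _ => rfl, fun t _ => ⟨fun ν _ => Or.inl rfl, ?_, ?_⟩, hfin⟩
    · intro ν _ ν' _ _ h
      exact absurd rfl h
    · intro ν hν hlt
      have h5 : p ν < (units (js.getD ν [])).length := hlt
      have := hfin ν hν
      omega
  · obtain ⟨p', hstep, hc7⟩ := step_core T js R hjs hR p c c3 c7 hc a b d ha hb hd h1 h2 h3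
    obtain ⟨q, q1, q2, q3⟩ := ih m hm c7 p' (L - 1) hc7 (by omega) (by
      intro ν hν
      rcases hstep.mv ν hν with h | ⟨h, h'⟩
      · rw [h]
        exact hp ν hν
      · omega) h
    have hL1 : L = (L - 1) + 1 := by omega
    refine ⟨fun t => if t = 0 then p else q (t - 1), ?_, ?_, ?_⟩
    · intro ν _
      rfl
    · intro t ht
      by_cases h0 : t = 0
      · subst h0
        simp only [if_true, zero_add, one_ne_zero, if_false, Nat.sub_self]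
        refine ⟨?_, ?_, ?_⟩
        · intro ν hν
          rw [q1 ν hν]
          exact hstep.mv ν hν
        · intro ν hν ν' hν' hne h5 h6
          rw [q1 ν hν] at h5
          rw [q1 ν' hν'] at h6
          exact hstep.ne ν hν ν' hν' hne h5 h6
        · intro ν hν h5 h6
          rw [q1 ν hν]
          exact hstep.ins ν hν h5 h6
      · simp only [h0, if_false, Nat.add_sub_cancel, Nat.add_eq_zero_iff, one_ne_zero, and_false]
        have := q2 (t - 1) (by omega)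
        rw [show t - 1 + 1 = t from by omega] at this
        exact this
    · intro ν hν
      rw [hL1]
      simp only [Nat.add_eq_zero_iff, one_ne_zero, and_false, if_false, Nat.add_sub_cancel]
      exact q3 ν hν

end PP

open PP in
theorem jrun_of_crun (T js : List Job) (R L bd n : ℕ) (hT : T.Nodup) (hjs : ∀ J ∈ js, J ∈ T)
    (hR : T.length * (um T + 1) < R) (c c' : ℕ → ℕ) (hc : ∀ j < R, c j = c0J T js L j)
    (h : CRun (prog T R) bd n ((0, 0, 0, 0), c) ((8, 0, 0, 0), c')) : JRun js L := by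
  obtain ⟨m, h⟩ := inv0 h
  have hr : T.length < R := by
    rw [Nat.mul_add] at hR
    omega
  obtain ⟨q, q1, q2, q3⟩ := main1 T js R bd hjs hR c' m c (fun _ => 0) L (by
    intro i hi
    rw [hc _ hi, c0J_eq T js hT hjs, cJ_ix]) (by
    rw [hc _ hr, c0J_eq T js hT hjs, cJ_len]) (by
    intro ν _
    exact Nat.zero_le _) h
  exact ⟨q, q1, q2, q3⟩

end Pool.Agent.helper66.JS
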