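import Pool.Agent.helper23.JS2.P1

/-!
# From time-stepped schedules to runs of the counter program
-/

set_option autoImplicit false

namespace Pool.Agent.helper66.JS

open Turing Finset

namespace PP

lemma exists_choice (T js : List Job) (hjs : ∀ J ∈ js, J ∈ T) (p p' : ℕ → ℕ)
    (h : JStep js p p') (μ : ℕ) :
    ∃ a ν, a ∈ chs T μ ∧
      (a ≠ 0 → ν < js.length ∧ cell T js p ν + 1 = a ∧ p' ν ≠ p ν ∧ (cur js p ν).1 = μ) ∧
      (a = 0 → ∀ ν < js.length, p' ν ≠ p ν → (cur js p ν).1 ≠ μ) := by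
  by_cases hex : ∃ ν < js.length, p' ν ≠ p ν ∧ (cur js p ν).1 = μ
  · obtain ⟨ν, hν, h1, h2⟩ := hex
    refine ⟨cell T js p ν + 1, ν, ?_, fun _ => ⟨hν, rfl, h1, h2⟩, fun h0 => by omega⟩
    have hm := hjs _ (getD_mem js ν hν)
    have := chs_of_cur T js p ν hm (by
      rcases h.mv ν hν with h3 | h3
      · exact absurd h3 h1
      · exact h3.2)
    rw [h2] at this
    exact this
  · push Not at hex
    exact ⟨0, 0, (mem_chs T μ 0).2 (Or.inl rfl), fun h0 => absurd rfl h0, fun _ => hex⟩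

lemma mach_lt (js : List Job) (p : ℕ → ℕ) (ν : ℕ) (hT3 : ∀ o ∈ js.getD ν [], o.1 < 3)
    (hp : p ν < (units (js.getD ν [])).length) : (cur js p ν).1 < 3 := by
  unfold cur
  rw [List.getD_eq_getElem _ _ hp]
  have hm := List.getElem_mem hp
  generalize (units (js.getD ν []))[p ν] = u at hm ⊢
  unfold units at hm
  rw [List.mem_flatMap] at hm
  obtain ⟨o, ho, h⟩ := hm
  rw [List.mem_map] at h
  obtain ⟨d, -, rfl⟩ := h
  exact hT3 o ho

/-- one time unit -/
lemma unit_step (T js : List Job) (R L bd : ℕ) (hT3 : ∀ J ∈ T, ∀ o ∈ J, o.1 < 3)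
    (hjs : ∀ J ∈ js, J ∈ T) (hb : ∀ J, js.count J < bd) (hL : L + 1 < bd) (p p' : ℕ → ℕ)
    (h : JStep js p p') (n : ℕ) (z : PSt × (ℕ → ℕ))
    (hrun : CRun (prog T R) bd n ((1, 0, 0, 0), cJ T js p' L) z) :
    CRun (prog T R) bd (n + 7) ((1, 0, 0, 0), cJ T js p (L + 1)) z := by
  obtain ⟨a, νa, ha, ga, na⟩ := exists_choice T js hjs p p' h 0
  obtain ⟨b, νb, hb', gb, nb⟩ := exists_choice T js hjs p p' h 1
  obtain ⟨d, νd, hd, gd, nd⟩ := exists_choice T js hjs p p' h 2
  obtain ⟨t1, t2, t3⟩ := three_moves T js p a b d νa νb νd ha hb' hd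
    (fun h => ⟨(ga h).1, (ga h).2.1⟩) (fun h => ⟨(gb h).1, (gb h).2.1⟩)
    (fun h => ⟨(gd h).1, (gd h).2.1⟩)
  have nab : a ≠ 0 → a ≠ b := fun h => chs_ne T ha hb' (by norm_num) h
  have nad : a ≠ 0 → a ≠ d := fun h => chs_ne T ha hd (by norm_num) h
  have nbd : b ≠ 0 → b ≠ d := fun h => chs_ne T hb' hd (by norm_num) h
  -- the moved jobs
  have hmoved : ∀ ν < js.length, (p' ν ≠ p ν ↔
      (a ≠ 0 ∧ ν = νa) ∨ (b ≠ 0 ∧ ν = νb) ∨ (d ≠ 0 ∧ ν = νd)) := by
    intro ν hν
    constructor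
    · intro h1
      have h2 : p ν < (units (js.getD ν [])).length := by
        rcases h.mv ν hν with h3 | h3
        · exact absurd h3 h1
        · exact h3.2
      have h3 := mach_lt js p ν (hT3 _ (hjs _ (getD_mem js ν hν))) h2
      have h4 : (cur js p ν).1 = 0 ∨ (cur js p ν).1 = 1 ∨ (cur js p ν).1 = 2 := by omega
      rcases h4 with h4 | h4 | h4
      · left
        have ha0 : a ≠ 0 := fun h0 => na h0 ν hν h1 h4
        refine ⟨ha0, ?_⟩
        by_contra hne
        obtain ⟨g1, -, g3, g4⟩ := ga ha0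
        exact h.ne ν hν νa g1 hne h1 g3 (by rw [h4, g4])
      · right; left
        have ha0 : b ≠ 0 := fun h0 => nb h0 ν hν h1 h4
        refine ⟨ha0, ?_⟩
        by_contra hne
        obtain ⟨g1, -, g3, g4⟩ := gb ha0
        exact h.ne ν hν νb g1 hne h1 g3 (by rw [h4, g4])
      · right; right
        have ha0 : d ≠ 0 := fun h0 => nd h0 ν hν h1 h4
        refine ⟨ha0, ?_⟩
        by_contra hne
        obtain ⟨g1, -, g3, g4⟩ := gd ha0
        exact h.ne ν hν νd g1 hne h1 g3 (by rw [h4, g4])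
    · rintro (⟨h0, rfl⟩ | ⟨h0, rfl⟩ | ⟨h0, rfl⟩)
      · exact (ga h0).2.2.1
      · exact (gb h0).2.2.1
      · exact (gd h0).2.2.1
  have hN : ∀ i, N T js p' i = N T js (mvj (mvj (mvj p a νa) b νb) d νd) i := by
    intro i
    apply N_congr
    intro ν hν
    by_cases hm : p' ν = p ν
    · have h1 : ¬ ((mvj (mvj (mvj p a νa) b νb) d νd) ν ≠ p ν) := by
        rw [t3 ν, ← hmoved ν hν]
        exact fun h => h hm
      push Not at h1
      rw [hm, h1]
    · have h1 : (mvj (mvj (mvj p a νa) b νb) d νd) ν ≠ p ν := by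
        rw [t3 ν, ← hmoved ν hν]
        exact hm
      rcases t2 ν with h2 | h2
      · exact absurd h2 h1
      · rcases h.mv ν hν with h3 | h3
        · exact absurd h3 hm
        · rw [h2, h3.1]
  have hNb : ∀ q : ℕ → ℕ, ∀ i, N T js q i < bd := by
    intro q i
    by_cases h0 : N T js q i = 0
    · omega
    · obtain ⟨J, hJ⟩ := N_le_count T js q i hjs (Nat.pos_of_ne_zero h0)
      exact lt_of_le_of_lt hJ (hb J)
  have hpos : ∀ ν < js.length, 0 < N T js p (cell T js p ν) :=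
    fun ν hν => (N_pos_iff T js p _).2 ⟨ν, hν, rfl⟩
  have hind : ∀ x : ℕ, x ≠ 0 → ind x (x - 1) = 1 := by
    intro x hx
    unfold ind
    rw [if_pos (by omega)]
  have hind0 : ∀ x y : ℕ, x ≠ 0 → x ≠ y → ind y (x - 1) = 0 := by
    intro x y hx hxy
    unfold ind
    rw [if_neg (by omega)]
  set c0 := cJ T js p (L + 1) with hc0
  have k0 : ∀ i, c0 (ix T i) = N T js p i := fun i => cJ_ix T js p (L + 1) i
  have l0 : c0 T.length = L + 1 := cJ_len T js p (L + 1)
  obtain ⟨c1, o1⟩ := dec_exists T a c0 (by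
    intro h0
    rw [k0]
    have := hpos νa (ga h0).1
    rw [show a - 1 = cell T js p νa from by have := (ga h0).2.1; omega]
    exact this)
  obtain ⟨e1, f1⟩ := dec_ok T a c0 c1 o1
  obtain ⟨c2, o2⟩ := dec_exists T b c1 (by
    intro h0
    have g1 := hpos νb (gb h0).1
    rw [show cell T js p νb = b - 1 from by have := (gb h0).2.1; omega] at g1
    have g2 := e1 (b - 1)
    have g3 := hind0 b a h0 (by
      intro h5
      exact nab (by omega) h5.symm)
    rw [k0] at g2
    omega)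
  obtain ⟨e2, f2⟩ := dec_ok T b c1 c2 o2
  obtain ⟨c3, o3⟩ := dec_exists T d c2 (by
    intro h0
    have g1 := hpos νd (gd h0).1
    rw [show cell T js p νd = d - 1 from by have := (gd h0).2.1; omega] at g1
    have g2 := e1 (d - 1)
    have g4 := e2 (d - 1)
    have g3 := hind0 d a h0 (by
      intro h5
      exact nad (by omega) h5.symm)
    have g5 := hind0 d b h0 (by
      intro h5
      exact nbd (by omega) h5.symm)
    rw [k0] at g2
    omega)
  obtain ⟨e3, f3⟩ := dec_ok T d c2 c3 o3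
  have hZ : ∀ j ∈ Zins T, c3 j = 0 := by
    intro j hj
    rw [mem_Zins] at hj
    obtain ⟨i, hi, hun, rfl⟩ := hj
    by_contra hne
    have q1 := e1 i
    have q2 := e2 i
    have q3 := e3 i
    rw [k0] at q1
    -- some job in the cell `i` was not moved
    have hNi : 0 < N T js p i := by omega
    -- all jobs in the cell are moved
    have hall : ∀ ν < js.length, cell T js p ν = i → (a = i + 1 ∧ ν = νa) ∨
        (b = i + 1 ∧ ν = νb) ∨ (d = i + 1 ∧ ν = νd) := by
      intro ν hν hc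
      have hm := hjs _ (getD_mem js ν hν)
      rw [← hc, un_cell T js p ν hm] at hun
      have hlt : p ν < (units (js.getD ν [])).length := by
        by_contra hge
        rw [List.getElem?_eq_none (by omega)] at hun
        simp at hun
      rw [List.getElem?_eq_getElem hlt] at hun
      have hmv := h.ins ν hν hlt (by
        unfold cur
        rw [List.getD_eq_getElem _ _ hlt]
        simpa using hun)
      rcases (hmoved ν hν).1 hmv with ⟨h0, rfl⟩ | ⟨h0, rfl⟩ | ⟨h0, rfl⟩
      · left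
        exact ⟨by rw [← hc]; exact (ga h0).2.1.symm, rfl⟩
      · right; left
        exact ⟨by rw [← hc]; exact (gb h0).2.1.symm, rfl⟩
      · right; right
        exact ⟨by rw [← hc]; exact (gd h0).2.1.symm, rfl⟩
    have hle : N T js p i ≤ 1 := by
      unfold N
      rw [Finset.card_le_one]
      intro x hx y hy
      rw [Finset.mem_filter, Finset.mem_range] at hx hy
      rcases hall x hx.1 hx.2 with h5 | h5 | h5 <;> rcases hall y hy.1 hy.2 with h6 | h6 | h6
      · rw [h5.2, h6.2]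
      · exact absurd (h5.1.trans h6.1.symm) (nab (by omega))
      · exact absurd (h5.1.trans h6.1.symm) (nad (by omega))
      · exact absurd (h6.1.trans h5.1.symm) (nab (by omega))
      · rw [h5.2, h6.2]
      · exact absurd (h5.1.trans h6.1.symm) (nbd (by omega))
      · exact absurd (h6.1.trans h5.1.symm) (nad (by omega))
      · exact absurd (h6.1.trans h5.1.symm) (nbd (by omega))
      · rw [h5.2, h6.2]
    obtain ⟨ν, hν, hc⟩ := (N_pos_iff T js p i).1 hNi
    have hsum : 1 ≤ ind a i + ind b i + ind d i := by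
      unfold ind
      rcases hall ν hν hc with h5 | h5 | h5
      · rw [if_pos h5.1]; omega
      · rw [if_pos h5.1]; omega
      · rw [if_pos h5.1]; omega
    omega
  obtain ⟨c4, o4⟩ := inc_exists T a (Zins T) c3 hZ
  obtain ⟨-, e4, f4⟩ := inc_ok T a _ c3 c4 o4
  obtain ⟨c5, o5⟩ := inc_exists T b [] c4 (by simp)
  obtain ⟨-, e5, f5⟩ := inc_ok T b _ c4 c5 o5
  obtain ⟨c6, o6⟩ := inc_exists T d [] c5 (by simp)
  obtain ⟨-, e6, f6⟩ := inc_ok T d _ c5 c6 o6
  have k6 : ∀ i, c6 (ix T i) = N T js p' i := by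
    intro i
    have := e1 i
    have := e2 i
    have := e3 i
    have := e4 i
    have := e5 i
    have := e6 i
    have := t1 i
    have := k0 i
    have := hN i
    omega
  have hlast : Function.update c6 T.length (c6 T.length - 1) = cJ T js p' L := by
    apply ext_ix T
    · intro i
      rw [Function.update_of_ne (ix_ne T i), k6, cJ_ix]
    · rw [Function.update_self, cJ_len]
      omega
  -- bounds
  have bnd : ∀ c : ℕ → ℕ, (∀ i, c (ix T i) ≤ c0 (ix T i) ∨ c (ix T i) ≤ c6 (ix T i)) →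
      c T.length ≤ L + 1 → ∀ j, c j < bd := by
    intro c h1 h2 j
    by_cases hj : j = T.length
    · subst hj
      omega
    · obtain ⟨i, rfl⟩ := ix_surj T j hj
      rcases h1 i with h3 | h3
      · rw [k0] at h3
        exact lt_of_le_of_lt h3 (hNb p i)
      · rw [k6] at h3
        exact lt_of_le_of_lt h3 (hNb p' i)
  refine CRun.step (n + 6) _ _ _ _ c1 _ ((mem_prog T R _ _ _).2
    (Or.inr (Or.inr (Or.inr (Or.inl ⟨a, ha, rfl, rfl, rfl⟩))))) o1 (bnd c1 ?_ (by omega)) ?_
  · intro i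
    left
    have := e1 i
    omega
  refine CRun.step (n + 5) _ _ _ _ c2 _ ((mem_prog T R _ _ _).2
    (Or.inr (Or.inr (Or.inr (Or.inr (Or.inl ⟨a, ha, b, hb', rfl, rfl, rfl⟩)))))) o2
    (bnd c2 ?_ (by omega)) ?_
  · intro i
    left
    have := e1 i
    have := e2 i
    omega
  refine CRun.step (n + 4) _ _ _ _ c3 _ ((mem_prog T R _ _ _).2
    (Or.inr (Or.inr (Or.inr (Or.inr (Or.inr (Or.inl ⟨a, ha, b, hb', d, hd, rfl, rfl, rfl⟩)))))))
    o3 (bnd c3 ?_ (by omega)) ?_
  · intro i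
    left
    have := e1 i
    have := e2 i
    have := e3 i
    omega
  refine CRun.step (n + 3) _ _ _ _ c4 _ ((mem_prog T R _ _ _).2
    (Or.inr (Or.inr (Or.inr (Or.inr (Or.inr (Or.inr (Or.inl
      ⟨a, ha, b, hb', d, hd, rfl, rfl, rfl⟩)))))))) o4 (bnd c4 ?_ (by omega)) ?_
  · intro i
    right
    have := e5 i
    have := e6 i
    omega
  refine CRun.step (n + 2) _ _ _ _ c5 _ ((mem_prog T R _ _ _).2
    (Or.inr (Or.inr (Or.inr (Or.inr (Or.inr (Or.inr (Or.inr (Or.inl
      ⟨a, ha, b, hb', d, hd, rfl, rfl, rfl⟩))))))))) o5 (bnd c5 ?_ (by omega)) ?_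
  · intro i
    right
    have := e6 i
    omega
  refine CRun.step (n + 1) _ _ _ _ c6 _ ((mem_prog T R _ _ _).2
    (Or.inr (Or.inr (Or.inr (Or.inr (Or.inr (Or.inr (Or.inr (Or.inr
      ⟨a, ha, b, hb', d, hd, rfl, rfl, rfl⟩))))))))) o6 (bnd c6 ?_ (by omega)) ?_
  · intro i
    right
    exact le_refl _
  refine CRun.step n _ _ _ _ (cJ T js p' L) _ ((mem_prog T R _ _ _).2
    (Or.inr (Or.inr (Or.inl ⟨rfl, rfl, rfl⟩)))) ?_ ?_ hrun
  · exact ⟨by simp, Or.inr (Or.inr ⟨rfl, by show 0 < c6 T.length; omega, hlast.symm⟩)⟩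
  · intro j
    by_cases hj : j = T.length
    · subst hj
      rw [cJ_len]
      omega
    · obtain ⟨i, rfl⟩ := ix_surj T j hj
      rw [cJ_ix]
      exact hNb p' i

end PP

open PP in
theorem crun_of_jrun (T js : List Job) (R L bd : ℕ) (hT : T.Nodup)
    (hT3 : ∀ J ∈ T, ∀ o ∈ J, o.1 < 3) (hjs : ∀ J ∈ js, J ∈ T)
    (hR : T.length * (um T + 1) < R) (hb : ∀ J, js.count J < bd) (hL : L < bd)
    (h : JRun js L) : ∃ n c', n ≤ 7 * L + 2 ∧
      CRun (prog T R) bd n ((0, 0, 0, 0), c0J T js L) ((8, 0, 0, 0), c') := by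
  obtain ⟨p, hp0, hstep, hfin⟩ := h
  have hNb : ∀ q : ℕ → ℕ, ∀ i, N T js q i < bd := by
    intro q i
    by_cases h0 : N T js q i = 0
    · omega
    · obtain ⟨J, hJ⟩ := N_le_count T js q i hjs (Nat.pos_of_ne_zero h0)
      exact lt_of_le_of_lt hJ (hb J)
  have hcb : ∀ (q : ℕ → ℕ) (k : ℕ), k ≤ L → ∀ j, cJ T js q k j < bd := by
    intro q k hk j
    by_cases hj : j = T.length
    · subst hj
      rw [cJ_len]
      omega
    · obtain ⟨i, rfl⟩ := ix_surj T j hj
      rw [cJ_ix]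
      exact hNb q i
  have main : ∀ k, k ≤ L → CRun (prog T R) bd (7 * k + 1)
      ((1, 0, 0, 0), cJ T js (p (L - k)) k) ((8, 0, 0, 0), cJ T js (p L) 0) := by
    intro k
    induction k with
    | zero =>
      intro _
      refine CRun.step 0 _ _ _ _ _ _ ((mem_prog T R _ _ _).2
        (Or.inr (Or.inl ⟨rfl, rfl, rfl⟩))) ⟨?_, Or.inl ⟨rfl, rfl⟩⟩ (hcb _ 0 (by omega))
        (CRun.refl _)
      intro j hj
      simp only [] at hj
      rw [mem_Zend] at hj
      obtain ⟨i, hi, hun, rfl⟩ := hj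
      rw [cJ_ix, Nat.sub_zero]
      by_contra hne
      obtain ⟨ν, hν, hc⟩ := (N_pos_iff T js _ i).1 (Nat.pos_of_ne_zero hne)
      rw [← hc, un_cell T js _ ν (hjs _ (getD_mem js ν hν)), hfin ν hν,
        List.getElem?_eq_none (le_refl _)] at hun
      simp at hun
    | succ k ih =>
      intro hk
      have := unit_step T js R k bd hT3 hjs hb (by omega) (p (L - (k + 1))) (p (L - k)) (by
        have := hstep (L - (k + 1)) (by omega)
        rw [show L - (k + 1) + 1 = L - k from by omega] at this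
        exact this) _ _ (ih (by omega))
      exact this
  refine ⟨7 * L + 1 + 1, cJ T js (p L) 0, by omega, ?_⟩
  refine CRun.step (7 * L + 1) _ _ _ _ (c0J T js L) _ ((mem_prog T R _ _ _).2
    (Or.inl ⟨rfl, rfl, rfl⟩)) ⟨?_, Or.inl ⟨rfl, rfl⟩⟩ ?_ ?_
  · intro j hj
    simp only [List.mem_range'_1] at hj
    unfold c0J
    rw [if_neg (by omega), if_neg (by omega)]
  · rw [c0J_eq T js hT hjs]
    exact hcb _ L (le_refl _)
  · have h1 := main L (le_refl _)
    rw [Nat.sub_self] at h1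
    have h2 : cJ T js (p 0) L = c0J T js L := by
      rw [c0J_eq T js hT hjs]
      apply ext_ix T
      · intro i
        rw [cJ_ix, cJ_ix]
        exact N_congr T js _ _ (fun ν hν => hp0 ν hν) i
      · rw [cJ_len, cJ_len]
    rw [h2] at h1
    exact h1

end Pool.Agent.helper66.JS
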